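import Mathlib
import Pool.Agent.Lib.MP_8eef66_an.Bridge

open MeasureTheory Set Filter Topology
open scoped ENNReal
open Pool.Agent.Lib.MP_8eef66_an

namespace Pool.Agent.Results.MP_8eef66_an.Density

/-- Every nonnegative good measure is a limit in total variation of measures in `V₊` lying
below it. -/
theorem result (N : ℕ) (hN : 1 ≤ N) (Ω : Set (Euc N)) (hΩ : IsOpen Ω)
    (hb : Bornology.IsBounded Ω) (g : ℝ → ℝ) (hg : Monotone g)
    (μ : FiniteMeasure (Euc N)) (hμ : IsGood Ω g μ) :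
    ∃ ν : ℕ → FiniteMeasure (Euc N),
      (∀ n, InVplus Ω g (ν n) ∧ (ν n : Measure (Euc N)) ≤ (μ : Measure (Euc N))) ∧
        Tendsto (fun n => tvDist (ν n) μ) atTop (𝓝 0) := by
  have : Nonempty (Fin N) := ⟨⟨0, hN⟩⟩
  obtain ⟨hμ0, u, hu, hgu, heq⟩ := hμ
  have key : ∀ n : ℕ, ∃ ν : FiniteMeasure (Euc N),
      (InVplus Ω g ν ∧ (ν : Measure (Euc N)) ≤ (μ : Measure (Euc N))) ∧
        tvDist ν μ ≤ (n : ℝ≥0∞)⁻¹ := by
    intro n
    obtain ⟨ν, τ, hsum, hτ, v, hv, hveq, hgv⟩ :=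
      main_approx volume hΩ hb hg (μ : Measure (Euc N)) hμ0 hu hgu
        (fun ζ h1 h2 => heq ζ (isTest_of_tsupport hΩ h1 h2))
        (ε := (n : ℝ≥0∞)⁻¹) (ENNReal.inv_ne_zero.2 (ENNReal.natCast_ne_top n))
    have hle : ν ≤ (μ : Measure (Euc N)) := hsum ▸ Measure.le_add_right le_rfl
    have hfin : IsFiniteMeasure ν := isFiniteMeasure_of_le _ hle
    refine ⟨⟨ν, hfin⟩, ⟨⟨?_, v, ⟨hv, fun ζ hζ => hveq ζ (hζ.isWTest hΩ hb)⟩, hgv⟩, hle⟩, ?_⟩
    · exact le_antisymm ((Measure.le_iff'.1 hle _).trans hμ0.le) zero_le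
    · exact (totalVariation_sub_of_add hsum).trans_le hτ
  choose ν hν hν' using key
  exact ⟨ν, hν, tendsto_of_tendsto_of_tendsto_of_le_of_le tendsto_const_nhds
    ENNReal.tendsto_inv_nat_nhds_zero (fun _ => zero_le) hν'⟩

end Pool.Agent.Results.MP_8eef66_an.Density
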